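import Pool.Agent.H75.QA.Targets
import Pool.Agent.H90.AC.W
import Pool.Agent.H90.AC.IND

/-!
# Module CNT: the weighted number of sets queried by alive paths
-/

namespace Pool.Agent.H90.QA

open Finset Pool.Agent.H68.AC Pool.Agent.H75.QA Pool.Agent.H90.AC

/-- Resampling one variable. -/
theorem resample_one {V : Type} [Fintype V] [DecidableEq V] (q : ℝ) (v : V) (F : (V → Bool) → ℝ) :
    ∑ z : V → Bool, wz q z * F z = ∑ z : V → Bool, wz q z *
      ∑ b : Bool, (if b then q else 1 - q) * F (Function.update z v b) := by
  have h1 : ∑ x : (V → Bool) × Bool, wz q x.1 * ((if x.2 then q else 1 - q) * F x.1) =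
      ∑ x : (V → Bool) × Bool, wz q x.1 * ((if x.2 then q else 1 - q) *
        F (Function.update x.1 v x.2)) := by
    refine Finset.sum_bij' (fun x _ => (Function.update x.1 v x.2, x.1 v))
      (fun x _ => (Function.update x.1 v x.2, x.1 v)) (fun _ _ => mem_univ _)
      (fun _ _ => mem_univ _) ?_ ?_ ?_
    · rintro ⟨R, Q⟩ _
      simp
    · rintro ⟨R, Q⟩ _
      simp
    · rintro ⟨R, Q⟩ _
      have h2 : wz q R * (if Q then q else 1 - q) =
          wz q (Function.update R v Q) * (if R v then q else 1 - q) := by
        have e1 : wz q R = (if R v then q else 1 - q) *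
            ∏ i ∈ univ.erase v, (if R i then q else 1 - q) :=
          (mul_prod_erase univ (fun i => if R i then q else 1 - q) (mem_univ v)).symm
        have e2 : wz q (Function.update R v Q) = (if Q then q else 1 - q) *
            ∏ i ∈ univ.erase v, (if R i then q else 1 - q) := by
          rw [wz, ← mul_prod_erase univ _ (mem_univ v)]
          congr 1
          · simp
          · refine prod_congr rfl fun i hi => ?_
            rw [Function.update_of_ne (ne_of_mem_erase hi)]
        rw [e1, e2]; ring
      simp only [Function.update_idem, Function.update_eq_self]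
      rw [← mul_assoc, ← mul_assoc, h2]
  rw [Fintype.sum_prod_type, Fintype.sum_prod_type] at h1
  calc ∑ z : V → Bool, wz q z * F z =
      ∑ z : V → Bool, ∑ b : Bool, wz q z * ((if b then q else 1 - q) * F z) := by
        refine sum_congr rfl fun z _ => ?_
        simp only [Fintype.sum_bool, if_true, Bool.false_eq_true, if_false]
        ring
    _ = _ := h1
    _ = _ := by
        refine sum_congr rfl fun z _ => ?_
        rw [mul_sum]

theorem sum_ind_var {V : Type} [Fintype V] [DecidableEq V] (q : ℝ) (v : V) (g : (V → Bool) → ℝ)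
    (hg : ∀ z b, g (Function.update z v b) = g z) :
    ∑ z : V → Bool, wz q z * (ind (z v = true) * g z) = q * ∑ z : V → Bool, wz q z * g z := by
  rw [resample_one q v, mul_sum]
  refine sum_congr rfl fun z _ => ?_
  simp only [Fintype.sum_bool, Function.update_self, hg, if_true, Bool.false_eq_true, if_false]
  rw [ind_true trivial, ind_false not_false]
  ring

/-- Some path which is alive outside `P` queries all of `P`. -/
def EE {V : Type} (t : DT V) (y z : V → Bool) (P : Finset V) : Prop :=
  ∃ ψ c, IsPath t ψ c ∧ (∀ u ∈ ψ, u.1 ∉ P → (y u.1 = u.2 ∨ z u.1 = true)) ∧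
    ∀ v ∈ P, v ∈ ψ.map Prod.fst

theorem EE_leaf {V : Type} {b : Bool} {y z : V → Bool} {P : Finset V} :
    EE (.leaf b) y z P ↔ P = ∅ := by
  constructor
  · rintro ⟨ψ, c, h, -, h2⟩
    cases h
    rw [Finset.eq_empty_iff_forall_notMem]
    intro v hv
    simpa using h2 v hv
  · rintro rfl
    exact ⟨[], b, IsPath.leaf b, by simp, by simp⟩

/-- The paths of `t` do not query `v`. -/
def NQ {V : Type} (t : DT V) (v : V) : Prop := ∀ ψ c, IsPath t ψ c → v ∉ ψ.map Prod.fst

theorem EE_update {V : Type} [DecidableEq V] {t : DT V} {v : V} (h : NQ t v) (y z : V → Bool)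
    (b : Bool) (P : Finset V) : EE t y (Function.update z v b) P ↔ EE t y z P := by
  have key : ∀ ψ c, IsPath t ψ c → ∀ u ∈ ψ, Function.update z v b u.1 = z u.1 := by
    intro ψ c hp u hu
    refine Function.update_of_ne ?_ _ _
    intro h'
    exact h ψ c hp (h' ▸ List.mem_map_of_mem hu)
  constructor
  · rintro ⟨ψ, c, h1, h2, h3⟩
    exact ⟨ψ, c, h1, fun u hu hP => by rw [← key ψ c h1 u hu]; exact h2 u hu hP, h3⟩
  · rintro ⟨ψ, c, h1, h2, h3⟩
    exact ⟨ψ, c, h1, fun u hu hP => by rw [key ψ c h1 u hu]; exact h2 u hu hP, h3⟩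

theorem ind_or_le (a b : Prop) : ind (a ∨ b) ≤ ind a + ind b := by
  by_cases ha : a
  · rw [ind_true (Or.inl ha), ind_true ha]
    linarith [ind_nonneg b]
  · by_cases hb : b
    · rw [ind_true (Or.inr hb), ind_true hb]
      linarith [ind_nonneg a]
    · rw [ind_false (by tauto)]
      linarith [ind_nonneg a, ind_nonneg b]

theorem ind_and (a b : Prop) : ind (a ∧ b) = ind a * ind b := by
  by_cases ha : a
  · by_cases hb : b
    · rw [ind_true ⟨ha, hb⟩, ind_true ha, ind_true hb, one_mul]
    · rw [ind_false (by tauto), ind_false hb, mul_zero]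
  · rw [ind_false (by tauto), ind_false ha, zero_mul]

/-- The sets without `v`. -/
noncomputable def gs {V : Type} [Fintype V] [DecidableEq V] (t : DT V) (y : V → Bool) (X : ℝ) (v : V)
    (z : V → Bool) : ℝ :=
  ∑ P ∈ univ.filter (fun P : Finset V => v ∉ P), X ^ P.card * ind (EE t y z P)

theorem gs_le {V : Type} [Fintype V] [DecidableEq V] (t : DT V) (y : V → Bool) {X : ℝ} (hX : 0 ≤ X)
    (v : V) (z : V → Bool) : gs t y X v z ≤ ∑ P : Finset V, X ^ P.card * ind (EE t y z P) :=
  sum_le_sum_of_subset_of_nonneg (filter_subset _ _) fun _ _ _ =>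
    mul_nonneg (pow_nonneg hX _) (ind_nonneg _)

theorem gs_nonneg {V : Type} [Fintype V] [DecidableEq V] (t : DT V) (y : V → Bool) {X : ℝ}
    (hX : 0 ≤ X) (v : V) (z : V → Bool) : 0 ≤ gs t y X v z :=
  sum_nonneg fun _ _ => mul_nonneg (pow_nonneg hX _) (ind_nonneg _)

theorem gs_update {V : Type} [Fintype V] [DecidableEq V] {t : DT V} {v : V} (h : NQ t v)
    (y : V → Bool) (X : ℝ) (z : V → Bool) (b : Bool) :
    gs t y X v (Function.update z v b) = gs t y X v z := by
  unfold gs
  refine sum_congr rfl fun P _ => ?_
  rw [propext (EE_update h y z b P)]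

theorem node_le {V : Type} [Fintype V] [DecidableEq V] {v : V} {l r : DT V}
    (hl : NQ l v) (hr : NQ r v) (y z : V → Bool) {X : ℝ} (hX : 0 ≤ X) :
    ∑ P : Finset V, X ^ P.card * ind (EE (.node v l r) y z P) ≤
      (ind (y v = false ∨ z v = true) + X) * gs l y X v z +
      (ind (y v = true ∨ z v = true) + X) * gs r y X v z := by
  -- sets without `v`
  have h1 : ∑ P ∈ univ.filter (fun P : Finset V => v ∉ P),
      X ^ P.card * ind (EE (.node v l r) y z P) ≤
      ind (y v = false ∨ z v = true) * gs l y X v z +
        ind (y v = true ∨ z v = true) * gs r y X v z := by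
    rw [gs, gs, mul_sum, mul_sum, ← sum_add_distrib]
    refine sum_le_sum fun P hP => ?_
    have hvP : v ∉ P := (mem_filter.1 hP).2
    have h2 : EE (.node v l r) y z P → ((y v = false ∨ z v = true) ∧ EE l y z P) ∨
        ((y v = true ∨ z v = true) ∧ EE r y z P) := by
      rintro ⟨ψ, c, h, ha, hq⟩
      have hrest : ∀ (b : Bool) (ψ' : List (V × Bool)), ψ = (v, b) :: ψ' →
          (∀ u ∈ ψ', u.1 ∉ P → (y u.1 = u.2 ∨ z u.1 = true)) ∧ ∀ v ∈ P, v ∈ ψ'.map Prod.fst := by
        rintro b ψ' rfl
        refine ⟨fun u hu => ha u (List.mem_cons_of_mem _ hu), fun x hx => ?_⟩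
        have := hq x hx
        rw [List.map_cons, List.mem_cons] at this
        rcases this with h | h
        · have h' : x = v := h
          rw [h'] at hx
          exact absurd hx hvP
        · exact h
      cases h with
      | left _ _ _ ψ' _ h =>
        refine Or.inl ⟨ha (v, false) List.mem_cons_self hvP, ψ', c, h, (hrest _ _ rfl).1,
          (hrest _ _ rfl).2⟩
      | right _ _ _ ψ' _ h =>
        refine Or.inr ⟨ha (v, true) List.mem_cons_self hvP, ψ', c, h, (hrest _ _ rfl).1,
          (hrest _ _ rfl).2⟩
    have h3 := (ind_mono h2).trans (ind_or_le _ _)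
    rw [ind_and, ind_and] at h3
    have h4 := mul_le_mul_of_nonneg_left h3 (pow_nonneg hX P.card)
    linarith
  -- sets with `v`
  have h2 : ∑ P ∈ univ.filter (fun P : Finset V => ¬ v ∉ P),
      X ^ P.card * ind (EE (.node v l r) y z P) ≤ X * gs l y X v z + X * gs r y X v z := by
    rw [gs, gs, mul_sum, mul_sum, ← sum_add_distrib]
    have h3 : ∀ P ∈ univ.filter (fun P : Finset V => ¬ v ∉ P),
        X ^ P.card * ind (EE (.node v l r) y z P) ≤
        X * (X ^ (P.erase v).card * ind (EE l y z (P.erase v))) +
          X * (X ^ (P.erase v).card * ind (EE r y z (P.erase v))) := by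
      intro P hP
      have hvP : v ∈ P := not_not.1 (mem_filter.1 hP).2
      have h4 : EE (.node v l r) y z P → EE l y z (P.erase v) ∨ EE r y z (P.erase v) := by
        rintro ⟨ψ, c, h, ha, hq⟩
        have hrest : ∀ (b : Bool) (ψ' : List (V × Bool)), ψ = (v, b) :: ψ' →
            v ∉ ψ'.map Prod.fst →
            (∀ u ∈ ψ', u.1 ∉ P.erase v → (y u.1 = u.2 ∨ z u.1 = true)) ∧
              ∀ x ∈ P.erase v, x ∈ ψ'.map Prod.fst := by
          rintro b ψ' rfl hv
          refine ⟨fun u hu hn => ha u (List.mem_cons_of_mem _ hu) fun h' => hn ?_, fun x hx => ?_⟩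
          · refine mem_erase.2 ⟨?_, h'⟩
            rintro h''
            exact hv (h'' ▸ List.mem_map_of_mem hu)
          · have := hq x (mem_of_mem_erase hx)
            rw [List.map_cons, List.mem_cons] at this
            rcases this with h | h
            · exact absurd h (ne_of_mem_erase hx)
            · exact h
        cases h with
        | left _ _ _ ψ' _ h =>
          have := hrest _ _ rfl (hl _ _ h)
          exact Or.inl ⟨ψ', c, h, this.1, this.2⟩
        | right _ _ _ ψ' _ h =>
          have := hrest _ _ rfl (hr _ _ h)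
          exact Or.inr ⟨ψ', c, h, this.1, this.2⟩
      have h5 := (ind_mono h4).trans (ind_or_le _ _)
      have h6 := mul_le_mul_of_nonneg_left h5 (pow_nonneg hX P.card)
      have h7 : X ^ P.card = X * X ^ (P.erase v).card := by
        rw [← pow_succ', card_erase_add_one hvP]
      rw [h7] at h6 ⊢
      linarith
    refine (sum_le_sum h3).trans (le_of_eq ?_)
    refine sum_bij' (fun P _ => P.erase v) (fun P _ => insert v P) ?_ ?_ ?_ ?_ ?_
    · intro P _
      simp
    · intro P _
      simp
    · intro P hP
      exact insert_erase (not_not.1 (mem_filter.1 hP).2)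
    · intro P hP
      exact erase_insert (mem_filter.1 hP).2
    · intro P _
      rfl
  rw [← sum_filter_add_sum_filter_not univ (fun P : Finset V => v ∉ P)]
  linarith

theorem CNT : T_CNT := by
  intro V _ _ t w y q X hd hN hq hq1 hX
  have hb : (1 : ℝ) ≤ 1 + q + 2 * X := by linarith
  suffices h : ∑ z : V → Bool, wz q z * ∑ P : Finset V, X ^ P.card * ind (EE t y z P) ≤
      (1 + q + 2 * X) ^ w from h
  induction t generalizing w with
  | leaf b =>
    have h1 : ∀ z : V → Bool, ∑ P : Finset V, X ^ P.card * ind (EE (.leaf b) y z P) = 1 := by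
      intro z
      rw [Finset.sum_eq_single ∅]
      · rw [ind_true (EE_leaf.2 rfl)]; simp
      · intro P _ hP
        rw [ind_false fun h => hP (EE_leaf.1 h), mul_zero]
      · intro h; exact absurd (mem_univ _) h
    simp only [h1, mul_one]
    rw [sum_wz]
    exact one_le_pow₀ hb
  | node v l r ihl ihr =>
    obtain ⟨w', rfl⟩ : ∃ w', w = w' + 1 := by
      refine ⟨w - 1, ?_⟩
      simp only [DT.depth] at hd
      omega
    have hdl : l.depth ≤ w' := by
      simp only [DT.depth] at hd
      omega
    have hdr : r.depth ≤ w' := by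
      simp only [DT.depth] at hd
      omega
    have hNl : ∀ ψ c, IsPath l ψ c → (ψ.map Prod.fst).Nodup ∧ v ∉ ψ.map Prod.fst := by
      intro ψ c h
      have := hN _ _ (IsPath.left v l r ψ c h)
      rw [List.map_cons, List.nodup_cons] at this
      exact ⟨this.2, this.1⟩
    have hNr : ∀ ψ c, IsPath r ψ c → (ψ.map Prod.fst).Nodup ∧ v ∉ ψ.map Prod.fst := by
      intro ψ c h
      have := hN _ _ (IsPath.right v l r ψ c h)
      rw [List.map_cons, List.nodup_cons] at this
      exact ⟨this.2, this.1⟩
    have hl : NQ l v := fun ψ c h => (hNl ψ c h).2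
    have hr : NQ r v := fun ψ c h => (hNr ψ c h).2
    have il := ihl w' hdl fun ψ c h => (hNl ψ c h).1
    have ir := ihr w' hdr fun ψ c h => (hNr ψ c h).1
    set B := (1 + q + 2 * X) ^ w' with hB
    have jl : ∑ z : V → Bool, wz q z * gs l y X v z ≤ B :=
      (sum_le_sum fun z _ => mul_le_mul_of_nonneg_left (gs_le l y hX v z)
        (wz_nonneg hq hq1 z)).trans il
    have jr : ∑ z : V → Bool, wz q z * gs r y X v z ≤ B :=
      (sum_le_sum fun z _ => mul_le_mul_of_nonneg_left (gs_le r y hX v z)
        (wz_nonneg hq hq1 z)).trans ir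
    have kl := sum_ind_var q v (gs l y X v) (gs_update hl y X)
    have kr := sum_ind_var q v (gs r y X v) (gs_update hr y X)
    have h0 : ∑ z : V → Bool, wz q z * ∑ P : Finset V, X ^ P.card * ind (EE (.node v l r) y z P) ≤
        ∑ z : V → Bool, wz q z * ((ind (y v = false ∨ z v = true) + X) * gs l y X v z +
      (ind (y v = true ∨ z v = true) + X) * gs r y X v z) :=
      sum_le_sum fun z _ => mul_le_mul_of_nonneg_left (node_le hl hr y z hX) (wz_nonneg hq hq1 z)
    refine h0.trans ?_
    set Sl := ∑ z : V → Bool, wz q z * gs l y X v z with hSl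
    set Sr := ∑ z : V → Bool, wz q z * gs r y X v z with hSr
    have hqX : 0 ≤ q + X := by linarith
    have h1X : 0 ≤ 1 + X := by linarith
    rw [pow_succ, ← hB]
    cases hy : y v with
    | false =>
      have e : ∑ z : V → Bool, wz q z * ((ind (false = false ∨ z v = true) + X) * gs l y X v z +
          (ind (false = true ∨ z v = true) + X) * gs r y X v z) =
          (1 + X) * Sl + (q + X) * Sr := by
        have e1 : ∀ z : V → Bool, wz q z * ((ind (false = false ∨ z v = true) + X) * gs l y X v z +
          (ind (false = true ∨ z v = true) + X) * gs r y X v z) =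
          (1 + X) * (wz q z * gs l y X v z) + (wz q z * (ind (z v = true) * gs r y X v z) +
            X * (wz q z * gs r y X v z)) := by
          intro z
          rw [ind_true (Or.inl rfl), show (false = true ∨ z v = true) = (z v = true) from by simp]
          ring
        rw [sum_congr rfl fun z _ => e1 z, sum_add_distrib, sum_add_distrib, kr, ← mul_sum, ← mul_sum]
        ring
      rw [e]
      nlinarith [mul_le_mul_of_nonneg_left jl h1X, mul_le_mul_of_nonneg_left jr hqX]
    | true =>
      have e : ∑ z : V → Bool, wz q z * ((ind (true = false ∨ z v = true) + X) * gs l y X v z +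
          (ind (true = true ∨ z v = true) + X) * gs r y X v z) =
          (q + X) * Sl + (1 + X) * Sr := by
        have e1 : ∀ z : V → Bool, wz q z * ((ind (true = false ∨ z v = true) + X) * gs l y X v z +
          (ind (true = true ∨ z v = true) + X) * gs r y X v z) =
          (wz q z * (ind (z v = true) * gs l y X v z) +
            X * (wz q z * gs l y X v z)) + (1 + X) * (wz q z * gs r y X v z) := by
          intro z
          rw [ind_true (Or.inl rfl), show (true = false ∨ z v = true) = (z v = true) from by simp]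
          ring
        rw [sum_congr rfl fun z _ => e1 z, sum_add_distrib, sum_add_distrib, kl, ← mul_sum, ← mul_sum]
        ring
      rw [e]
      nlinarith [mul_le_mul_of_nonneg_left jl hqX, mul_le_mul_of_nonneg_left jr h1X]

end Pool.Agent.H90.QA
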