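import Pool.Agent.H75.QA.Targets
import Pool.Agent.H90.AC.W
import Pool.Agent.H90.AC.IND

/-!
# Module INDS: conditioning on stars
-/

namespace Pool.Agent.H90.QA

open Finset Pool.Agent.H68.AC Pool.Agent.H75.QA Pool.Agent.H90.AC

/-- Exchange the entries in `P`. -/
def sw {V : Type} [DecidableEq V] {d : ℕ} (P : Finset V) (R C : Fin d → V → Bool) :
    Fin d → V → Bool :=
  fun j v => if v ∈ P then C j v else R j v

theorem sw_sw {V : Type} [DecidableEq V] {d : ℕ} (P : Finset V) (R C : Fin d → V → Bool) :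
    sw P (sw P R C) (sw P C R) = R := by
  funext j v
  simp only [sw]
  split_ifs <;> rfl

theorem WS_sw {V : Type} [Fintype V] [DecidableEq V] {d : ℕ} (q : ℝ) (P : Finset V)
    (R C : Fin d → V → Bool) : WS q (sw P R C) * WS q (sw P C R) = WS q R * WS q C := by
  simp only [WS, wz, ← prod_mul_distrib]
  refine prod_congr rfl fun j _ => prod_congr rfl fun v _ => ?_
  simp only [sw]
  by_cases hv : v ∈ P
  · simp only [hv, if_true]
    exact mul_comm _ _
  · simp only [hv, if_false]

theorem sum_WS {V : Type} [Fintype V] [DecidableEq V] {d : ℕ} (q : ℝ) :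
    ∑ S : Fin d → V → Bool, WS q S = 1 := by
  have := sum_fun_prod (ι := Fin d) (fun _ (R : V → Bool) => wz q R)
  simp only [sum_wz, prod_const_one] at this
  exact this

theorem WS_nonneg {V : Type} [Fintype V] {d : ℕ} {q : ℝ} (hq : 0 ≤ q) (hq1 : q ≤ 1)
    (S : Fin d → V → Bool) : 0 ≤ WS q S :=
  prod_nonneg fun _ _ => wz_nonneg hq hq1 _

/-- The probability that all entries in `P` are stars. -/
theorem sum_ind_star {V : Type} [Fintype V] [DecidableEq V] {d : ℕ} (q : ℝ) (P : Finset V) :
    ∑ S : Fin d → V → Bool, WS q S * ind (∀ i, ∀ v ∈ P, S i v = true) = q ^ (d * P.card) := by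
  have h1 : ∀ S : Fin d → V → Bool, WS q S * ind (∀ i, ∀ v ∈ P, S i v = true) =
      ∏ i, ∏ v, ((if S i v = true then q else 1 - q) *
        (if v ∈ P → S i v = true then (1 : ℝ) else 0)) := by
    intro S
    simp only [prod_mul_distrib]
    congr 1
    by_cases h : ∀ i, ∀ v ∈ P, S i v = true
    · rw [ind_true h]
      symm
      refine prod_eq_one fun j _ => prod_eq_one fun v _ => ?_
      rw [if_pos (h j v)]
    · rw [ind_false h]
      push Not at h
      obtain ⟨j, v, hv, hn⟩ := h
      symm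
      refine prod_eq_zero (mem_univ j) (prod_eq_zero (mem_univ v) ?_)
      rw [if_neg]
      intro h'; exact hn (h' hv)
  rw [sum_congr rfl fun S _ => h1 S]
  have h2 := sum_fun_prod (ι := Fin d) (fun _ (R : V → Bool) =>
    ∏ v, ((if R v = true then q else 1 - q) * (if v ∈ P → R v = true then (1 : ℝ) else 0)))
  have h3 := sum_fun_prod (ι := V) (fun v (a : Bool) =>
    ((if a = true then q else 1 - q) * (if v ∈ P → a = true then (1 : ℝ) else 0)))
  have h4 : ∀ v : V, ∑ a : Bool, ((if a = true then q else 1 - q) *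
      (if v ∈ P → a = true then (1 : ℝ) else 0)) = if v ∈ P then q else 1 := by
    intro v
    by_cases hv : v ∈ P
    · simp [hv]
    · simp [hv]
  simp only [h4, prod_ite_mem, univ_inter, prod_const] at h3
  refine h2.trans ?_
  rw [h3, prod_const, card_univ, Fintype.card_fin, ← pow_mul, mul_comm]

theorem INDS : T_INDS := by
  intro V _ _ d q P F hF
  rw [← sum_ind_star q P, sum_mul]
  have h1 : ∑ x : (Fin d → V → Bool) × (Fin d → V → Bool),
      (WS q x.1 * ind (∀ j, ∀ v ∈ P, x.1 j v = true)) * (WS q x.2 * F x.2) =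
      ∑ x : (Fin d → V → Bool) × (Fin d → V → Bool),
        WS q x.1 * (WS q x.2 * (ind (∀ j, ∀ v ∈ P, x.2 j v = true) * F x.2)) := by
    refine Finset.sum_bij' (fun x _ => (sw P x.1 x.2, sw P x.2 x.1))
      (fun x _ => (sw P x.1 x.2, sw P x.2 x.1)) (fun _ _ => mem_univ _) (fun _ _ => mem_univ _)
      ?_ ?_ ?_
    · rintro ⟨R, Q⟩ _
      simp [sw_sw]
    · rintro ⟨R, Q⟩ _
      simp [sw_sw]
    · rintro ⟨R, Q⟩ _
      have e1 : F (sw P Q R) = F Q := hF _ _ fun j v hv => by simp [sw, hv]
      have e2 : (∀ j, ∀ v ∈ P, sw P Q R j v = true) ↔ (∀ j, ∀ v ∈ P, R j v = true) := by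
        refine forall_congr' fun j => forall_congr' fun v => forall_congr' fun hv => ?_
        simp [sw, hv]
      simp only [e1, e2]
      have := WS_sw q P R Q
      linear_combination (-(ind (∀ j, ∀ v ∈ P, R j v = true) * F Q)) * this
  rw [Fintype.sum_prod_type, Fintype.sum_prod_type] at h1
  calc _ = _ := by
        refine sum_congr rfl fun R _ => ?_
        rw [mul_sum]
    _ = _ := h1
    _ = _ := by
        simp only
        rw [← sum_mul_sum, sum_WS, one_mul]

end Pool.Agent.H90.QA
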