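import Pool.Agent.H75.QA.Targets
import Pool.Agent.H90.AC.W
import Pool.Agent.H90.AC.IND

/-!
# Module PUSHS: random rounds and (star patterns, bits) give the same merged rounds
-/

namespace Pool.Agent.H90.QA

open Finset Pool.Agent.H68.AC Pool.Agent.H75.QA Pool.Agent.H90.AC

/-- Pushing a product weight forward coordinatewise. -/
theorem push_prod {ι α β : Type} [Fintype ι] [DecidableEq ι] [Fintype α] [Fintype β] [DecidableEq β]
    (μ : α → ℝ) (ν : β → ℝ) (g : α → β) (h : ∀ s, ∑ a, μ a * (if g a = s then 1 else 0) = ν s)
    (H : (ι → β) → ℝ) :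
    ∑ R : ι → α, (∏ i, μ (R i)) * H (fun i => g (R i)) = ∑ S : ι → β, (∏ i, ν (S i)) * H S := by
  classical
  have h1 : ∀ R : ι → α, H (fun i => g (R i)) =
      ∑ S : ι → β, (∏ i, if g (R i) = S i then (1 : ℝ) else 0) * H S := by
    intro R
    rw [Finset.sum_eq_single (fun i => g (R i))]
    · simp
    · intro y _ hy
      obtain ⟨v, hv⟩ := Function.ne_iff.1 hy
      rw [prod_eq_zero (mem_univ v) (if_neg (Ne.symm hv)), zero_mul]
    · intro h; exact absurd (mem_univ _) h
  have h2 : ∀ S : ι → β, ∑ R : ι → α, (∏ i, μ (R i)) * (∏ i, if g (R i) = S i then (1 : ℝ) else 0) =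
      ∏ i, ν (S i) := by
    intro S
    have := sum_fun_prod (ι := ι) (fun i (a : α) => μ a * (if g a = S i then (1 : ℝ) else 0))
    simp only [h, prod_mul_distrib] at this
    exact this
  calc ∑ R : ι → α, (∏ i, μ (R i)) * H (fun i => g (R i)) =
      ∑ R : ι → α, ∑ S : ι → β,
        ((∏ i, μ (R i)) * (∏ i, if g (R i) = S i then (1 : ℝ) else 0)) * H S := by
        refine sum_congr rfl fun R _ => ?_
        rw [h1 R, mul_sum]
        exact sum_congr rfl fun S _ => by ring
    _ = _ := by
        rw [sum_comm]
        refine sum_congr rfl fun S _ => ?_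
        rw [← sum_mul, h2]

/-- One round. -/
theorem one_round {V : Type} [Fintype V] [DecidableEq V] (q p : ℝ) (H : (V → Bool) → (V → Bool) → ℝ) :
    ∑ Q : PA V, wt q p Q * ∑ z : V → Bool, wz p z * H (fun v => (Q v).isNone)
        (fun v => (Q v).getD (z v)) =
      ∑ Q : PA V, wt q p Q * ∑ z : V → Bool, wz p z * H (fun v => (Q v).isNone) z := by
  classical
  -- both sides are sums over `V → Option Bool × Bool`
  have key : ∀ g : Option Bool × Bool → Bool × Bool,
      (∀ s, ∑ a : Option Bool × Bool, (w1 q p a.1 * (if a.2 then p else 1 - p)) *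
        (if g a = s then 1 else 0) = (if s.1 then q else 1 - q) * (if s.2 then p else 1 - p)) →
      ∑ Q : PA V, wt q p Q * ∑ z : V → Bool, wz p z *
        H (fun v => (g (Q v, z v)).1) (fun v => (g (Q v, z v)).2) =
      ∑ S : V → Bool × Bool, (∏ v, (if (S v).1 then q else 1 - q) * (if (S v).2 then p else 1 - p)) *
        H (fun v => (S v).1) (fun v => (S v).2) := by
    intro g hg
    rw [← push_prod (ι := V) _ _ g hg (fun S => H (fun v => (S v).1) (fun v => (S v).2))]
    have e := (Equiv.arrowProdEquivProdArrow V (fun _ => Option Bool) (fun _ => Bool)).symm.sum_comp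
      (fun R : V → Option Bool × Bool => (∏ i, w1 q p (R i).1 * (if (R i).2 then p else 1 - p)) *
        H (fun v => (g (R v)).1) (fun v => (g (R v)).2))
    rw [← e, Fintype.sum_prod_type]
    refine sum_congr rfl fun Q _ => ?_
    rw [mul_sum]
    refine sum_congr rfl fun z _ => ?_
    simp only [Equiv.arrowProdEquivProdArrow, Equiv.coe_fn_symm_mk, wt, wz, prod_mul_distrib]
    ring_nf
  have k1 := key (fun a => (a.1.isNone, a.1.getD a.2)) (by
    rintro ⟨s, c⟩
    rw [Fintype.sum_prod_type, Fintype.sum_option]
    simp only [Fintype.sum_bool, w1]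
    cases s <;> cases c <;> simp <;> ring_nf)
  have k2 := key (fun a => (a.1.isNone, a.2)) (by
    rintro ⟨s, c⟩
    rw [Fintype.sum_prod_type, Fintype.sum_option]
    simp only [Fintype.sum_bool, w1]
    cases s <;> cases c <;> simp <;> ring_nf)
  exact k1.trans k2.symm

theorem fd_persist {V : Type} {d : ℕ} (R : Fin d → PA V) {j j' : ℕ} (h : j ≤ j') {v : V} {c : Bool}
    (hc : fd R j v = some c) : fd R j' v = some c := by
  induction j', h using Nat.le_induction with
  | base => exact hc
  | succ j' _ ih => simp only [fd, mrg, ih]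

theorem fd_Rof {V : Type} {d : ℕ} (R : Fin d → PA V) (z : V → Bool) (j : ℕ) :
    fd (Rof (fun i v => (R i v).isNone) (fun v => (fd R d v).getD (z v))) j = fd R j := by
  induction j with
  | zero => rfl
  | succ j ih =>
    funext v
    simp only [fd, mrg, ih]
    cases h : fd R j v with
    | some b => rfl
    | none =>
      simp only
      by_cases hj : j < d
      · simp only [hj, dif_pos, Rof]
        cases hR : R ⟨j, hj⟩ v with
        | none => simp
        | some c =>
          have h1 : fd R (j + 1) v = some c := by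
            simp only [fd, mrg, h, hj, dif_pos, hR]
          have h2 := fd_persist R (show j + 1 ≤ d from hj) h1
          simp [h2]
      · simp only [hj, dif_neg, not_false_eq_true]

theorem hybrid {V : Type} [Fintype V] [DecidableEq V] (d : ℕ) (q p : ℝ)
    (G : (Fin d → V → Bool) → (V → Bool) → ℝ) (j : ℕ) (hj : j ≤ d) :
    ∑ R : Fin d → PA V, Wt q p R * ∑ z : V → Bool, wz p z *
        G (fun i v => (R i v).isNone) (fun v => (fd R j v).getD (z v)) =
      ∑ R : Fin d → PA V, Wt q p R * ∑ z : V → Bool, wz p z *
        G (fun i v => (R i v).isNone) z := by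
  induction j with
  | zero => simp only [fd, Option.getD_none]
  | succ j ih =>
    rw [← ih (by omega), resample q p ⟨j, hj⟩]
    conv_rhs => rw [resample q p ⟨j, hj⟩]
    refine sum_congr rfl fun R _ => ?_
    congr 1
    have e1 : ∀ (Q : PA V) (v : V), fd (Function.update R ⟨j, hj⟩ Q) j v = fd R j v := by
      intro Q v
      refine fd_congr _ _ j v fun i hi => ?_
      rw [Function.update_of_ne]
      intro h
      rw [h] at hi
      exact absurd hi (lt_irrefl _)
    have e2 : ∀ Q : PA V, (fun i v => (Function.update R ⟨j, hj⟩ Q i v).isNone) =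
        Function.update (fun i v => (R i v).isNone) ⟨j, hj⟩ (fun v => (Q v).isNone) := by
      intro Q
      funext i v
      by_cases hi : i = ⟨j, hj⟩
      · subst hi; simp
      · rw [Function.update_of_ne hi, Function.update_of_ne hi]
    have h1 := one_round q p (fun s y =>
      G (Function.update (fun i v => (R i v).isNone) ⟨j, hj⟩ s) (fun v => (fd R j v).getD (y v)))
    have e3 : ∀ (Q : PA V) (z : V → Bool),
        (fun v => (fd (Function.update R ⟨j, hj⟩ Q) (j + 1) v).getD (z v)) =
        (fun v => (fd R j v).getD ((Q v).getD (z v))) := by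
      intro Q z
      funext v
      rw [fd_succ _ j hj]
      simp only [mrg, e1, Function.update_self]
      cases fd R j v <;> rfl
    simp only [e2, e3, e1]
    exact h1

theorem sum_isNone {V : Type} [Fintype V] [DecidableEq V] (d : ℕ) (q p : ℝ)
    (H : (Fin d → V → Bool) → ℝ) :
    ∑ R : Fin d → PA V, Wt q p R * H (fun i v => (R i v).isNone) =
      ∑ S : Fin d → V → Bool, WS q S * H S := by
  refine push_prod (ι := Fin d) (fun Q : PA V => wt q p Q) (fun s : V → Bool => wz q s)
    (fun Q v => (Q v).isNone) ?_ H
  intro s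
  have h := push_prod (ι := V) (fun a : Option Bool => w1 q p a)
    (fun b : Bool => if b then q else 1 - q) Option.isNone (by
      intro b
      rw [Fintype.sum_option]
      simp only [Fintype.sum_bool, w1]
      cases b
      · simp; ring
      · simp) (fun S => if S = s then (1 : ℝ) else 0)
  refine h.trans ?_
  simp [wz]

theorem PUSHS : T_PUSHS := by
  intro V _ _ d q p G hG
  have h1 := hybrid (V := V) d q p (fun S y => G (Rof S y)) d le_rfl
  have h2 := sum_isNone (V := V) d q p (fun S => ∑ z : V → Bool, wz p z * G (Rof S z))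
  have h3 : ∀ (R : Fin d → PA V) (z : V → Bool),
      G (Rof (fun i v => (R i v).isNone) (fun v => (fd R d v).getD (z v))) = G R :=
    fun R z => hG _ _ fun j => fd_Rof R z j
  simp only [h3] at h1
  calc _ = ∑ S : Fin d → V → Bool, WS q S * ∑ z : V → Bool, wz p z * G (Rof S z) := by
        refine sum_congr rfl fun S _ => ?_
        rw [mul_sum]
        exact sum_congr rfl fun y _ => by ring
    _ = _ := h2.symm
    _ = _ := h1.symm
    _ = _ := by
        refine sum_congr rfl fun R _ => ?_
        rw [← sum_mul, sum_wz, one_mul]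

end Pool.Agent.H90.QA
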